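import Mathlib

/-!
For every field `K` and every `r ≥ 1` there is a squarefree monomial ideal `I` in a polynomial ring
over `K` with `v(I) = r` and `depth (R/I) = 1`.  The ideal is the Stanley-Reisner ideal of the
disjoint union of two boundaries of `r`-simplices.
-/

open MvPolynomial
open scoped Pointwise

namespace Pool.Agent.Results.MP_d06a13_ag.VNumberDepth

universe u

/-- `I` is a squarefree monomial ideal of `K[x_1, …, x_n]`: a proper ideal generated by a set of
squarefree monomials `∏ i ∈ s, x_i`. -/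
def IsSquarefreeMonomialIdeal {K : Type u} [Field K] {n : ℕ}
    (I : Ideal (MvPolynomial (Fin n) K)) : Prop :=
  I ≠ ⊤ ∧ ∃ S : Set (Finset (Fin n)),
    I = Ideal.span ((fun s : Finset (Fin n) => ∏ i ∈ s, (X i : MvPolynomial (Fin n) K)) '' S)

/-- The v-number of an ideal `I` of `R = K[x_1, …, x_n]`: the least degree `d` of a homogeneous
polynomial `f` such that `(I : f)` is an associated prime of `I` (it is `⊤` if there is none). -/
noncomputable def vNumber {K : Type u} [Field K] {n : ℕ}
    (I : Ideal (MvPolynomial (Fin n) K)) : ℕ∞ :=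
  sInf {d : ℕ∞ | ∃ k : ℕ, d = k ∧ ∃ f : MvPolynomial (Fin n) K, f.IsHomogeneous k ∧
    ∃ p ∈ associatedPrimes (MvPolynomial (Fin n) K) (MvPolynomial (Fin n) K ⧸ I),
      Submodule.colon I {f} = p}

/-- The depth of `R/I`, `R = K[x_1, …, x_n]`, with respect to the maximal ideal
`(x_1, …, x_n)`: the supremum of the lengths of the `R/I`-regular sequences in that ideal. -/
noncomputable def depthQuot {K : Type u} [Field K] {n : ℕ}
    (I : Ideal (MvPolynomial (Fin n) K)) : ℕ∞ :=
  sSup {d : ℕ∞ | ∃ rs : List (MvPolynomial (Fin n) K), d = rs.length ∧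
    (∀ r ∈ rs, r ∈ Ideal.span (Set.range (X : Fin n → MvPolynomial (Fin n) K))) ∧
    RingTheory.Sequence.IsRegular (MvPolynomial (Fin n) K ⧸ I) rs}

set_option linter.unusedSectionVars false
set_option linter.unusedSimpArgs false

section general

variable {K : Type u} [Field K] {σ : Type} [Fintype σ] [DecidableEq σ]

/-- kill the variables in `T` -/
noncomputable def kill (K : Type u) [Field K] (T : Finset σ) :
    MvPolynomial σ K →ₐ[K] MvPolynomial σ K :=
  aeval (fun i => if i ∈ T then 0 else X i)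

/-- the ideal generated by the variables in `T` -/
noncomputable def PT (K : Type u) [Field K] (T : Finset σ) : Ideal (MvPolynomial σ K) :=
  Ideal.span (X '' (T : Set σ))

lemma mem_PT {T : Finset σ} {f : MvPolynomial σ K} :
    f ∈ PT K T ↔ ∀ m ∈ f.support, ∃ i ∈ T, m i ≠ 0 := by
  unfold PT
  rw [mem_ideal_span_X_image]
  simp

lemma sub_kill_mem (T : Finset σ) (f : MvPolynomial σ K) : f - kill K T f ∈ PT K T := by
  induction f using MvPolynomial.induction_on with
  | C a => simp [kill]
  | add p q hp hq =>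
    have : p + q - kill K T (p + q) = (p - kill K T p) + (q - kill K T q) := by
      rw [map_add]; ring
    rw [this]
    exact Ideal.add_mem _ hp hq
  | mul_X p i hp =>
    have h1 : (X i : MvPolynomial σ K) - kill K T (X i) ∈ PT K T := by
      by_cases hi : i ∈ T
      · have : (X i : MvPolynomial σ K) - kill K T (X i) = X i := by simp [kill, hi]
        rw [this]
        exact Ideal.subset_span ⟨i, by simpa using hi, rfl⟩
      · have : (X i : MvPolynomial σ K) - kill K T (X i) = 0 := by simp [kill, hi]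
        rw [this]
        exact Ideal.zero_mem _
    have : p * X i - kill K T (p * X i)
        = X i * (p - kill K T p) + kill K T p * (X i - kill K T (X i)) := by
      rw [map_mul]; ring
    rw [this]
    exact Ideal.add_mem _ (Ideal.mul_mem_left _ _ hp) (Ideal.mul_mem_left _ _ h1)

lemma PT_eq_ker (T : Finset σ) : PT K T = RingHom.ker (kill K T : MvPolynomial σ K →ₐ[K] _) := by
  apply le_antisymm
  · unfold PT
    rw [Ideal.span_le]
    rintro _ ⟨i, hi, rfl⟩
    have hi' : i ∈ T := by simpa using hi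
    simp [RingHom.mem_ker, kill, hi']
  · intro f hf
    have h := sub_kill_mem T f
    rw [RingHom.mem_ker] at hf
    rwa [hf, sub_zero] at h

lemma PT_prime (T : Finset σ) : (PT K T).IsPrime := by
  rw [PT_eq_ker]
  exact RingHom.ker_isPrime _

lemma X_mem_PT {T : Finset σ} {i : σ} : (X i : MvPolynomial σ K) ∈ PT K T ↔ i ∈ T := by
  rw [mem_PT]
  constructor
  · intro h
    obtain ⟨j, hj, hj2⟩ := h (Finsupp.single i 1) (by simp [X, mem_support_iff])
    rw [Finsupp.single_apply] at hj2
    by_cases hij : i = j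
    · rwa [hij]
    · simp [hij] at hj2
  · intro h m hm
    refine ⟨i, h, ?_⟩
    rw [support_X, Finset.mem_singleton] at hm
    simp [hm]

lemma PT_mono {S T : Finset σ} (h : S ⊆ T) : PT K S ≤ PT K T := by
  unfold PT
  apply Ideal.span_mono
  apply Set.image_mono
  simpa using h

lemma one_notMem_PT (T : Finset σ) : (1 : MvPolynomial σ K) ∉ PT K T := by
  intro h
  exact (PT_prime T).ne_top ((Ideal.eq_top_iff_one _).2 h)

/-- the squarefree generators -/
def gens (A B : Finset σ) : Set (Finset σ) :=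
  {s | s = A ∨ s = B ∨ ∃ a ∈ A, ∃ b ∈ B, s = {a, b}}

/-- the ideal -/
noncomputable def JJ (K : Type u) [Field K] (A B : Finset σ) : Ideal (MvPolynomial σ K) :=
  Ideal.span ((fun s : Finset σ => ∏ i ∈ s, (X i : MvPolynomial σ K)) '' gens A B)

lemma prod_X_eq (s : Finset σ) :
    (∏ i ∈ s, (X i : MvPolynomial σ K)) = monomial (∑ i ∈ s, Finsupp.single i 1) 1 := by
  rw [monomial_sum_one]
  rfl

lemma esum_le (s : Finset σ) (m : σ →₀ ℕ) :
    (∑ i ∈ s, Finsupp.single i 1) ≤ m ↔ ∀ i ∈ s, m i ≠ 0 := by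
  constructor
  · intro h i hi
    have := h i
    rw [Finsupp.finsetSum_apply] at this
    have h2 : (∑ j ∈ s, (Finsupp.single j 1 : σ →₀ ℕ) i) = 1 := by
      rw [Finset.sum_eq_single i]
      · simp
      · intro j _ hj
        simp [Finsupp.single_apply, hj]
      · intro hh
        exact absurd hi hh
    omega
  · intro h i
    rw [Finsupp.finsetSum_apply]
    by_cases hi : i ∈ s
    · have h2 : (∑ j ∈ s, (Finsupp.single j 1 : σ →₀ ℕ) i) = 1 := by
        rw [Finset.sum_eq_single i]
        · simp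
        · intro j _ hj
          simp [Finsupp.single_apply, hj]
        · intro hh
          exact absurd hi hh
      have := h i hi
      omega
    · have h2 : (∑ j ∈ s, (Finsupp.single j 1 : σ →₀ ℕ) i) = 0 := by
        apply Finset.sum_eq_zero
        intro j hj
        have : j ≠ i := fun hh => hi (hh ▸ hj)
        simp [Finsupp.single_apply, this]
      omega

lemma mem_span_prod {S : Set (Finset σ)} {f : MvPolynomial σ K} :
    f ∈ Ideal.span ((fun s : Finset σ => ∏ i ∈ s, (X i : MvPolynomial σ K)) '' S) ↔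
      ∀ m ∈ f.support, ∃ s ∈ S, ∀ i ∈ s, m i ≠ 0 := by
  have : ((fun s : Finset σ => ∏ i ∈ s, (X i : MvPolynomial σ K)) '' S)
      = (fun s => monomial s (1 : K)) '' ((fun s : Finset σ => ∑ i ∈ s, Finsupp.single i 1) '' S) := by
    rw [Set.image_image]
    apply Set.image_congr
    intro s _
    exact prod_X_eq s
  rw [this, mem_ideal_span_monomial_image]
  constructor
  · intro h m hm
    obtain ⟨_, ⟨s, hs, rfl⟩, h2⟩ := h m hm
    exact ⟨s, hs, (esum_le s m).1 h2⟩
  · intro h m hm
    obtain ⟨s, hs, h2⟩ := h m hm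
    exact ⟨_, ⟨s, hs, rfl⟩, (esum_le s m).2 h2⟩

lemma mem_JJ {A B : Finset σ} {f : MvPolynomial σ K} :
    f ∈ JJ K A B ↔ ∀ m ∈ f.support, (∀ i ∈ A, m i ≠ 0) ∨ (∀ i ∈ B, m i ≠ 0) ∨
      ∃ a ∈ A, ∃ b ∈ B, m a ≠ 0 ∧ m b ≠ 0 := by
  unfold JJ
  rw [mem_span_prod]
  apply forall₂_congr
  intro m _
  constructor
  · rintro ⟨s, (rfl | rfl | ⟨a, ha, b, hb, rfl⟩), h⟩
    · exact Or.inl h
    · exact Or.inr (Or.inl h)
    · exact Or.inr (Or.inr ⟨a, ha, b, hb, h a (by simp), h b (by simp)⟩)
  · rintro (h | h | ⟨a, ha, b, hb, h1, h2⟩)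
    · exact ⟨A, Or.inl rfl, h⟩
    · exact ⟨B, Or.inr (Or.inl rfl), h⟩
    · refine ⟨{a, b}, Or.inr (Or.inr ⟨a, ha, b, hb, rfl⟩), ?_⟩
      intro i hi
      simp only [Finset.mem_insert, Finset.mem_singleton] at hi
      rcases hi with rfl | rfl
      · exact h1
      · exact h2

lemma JJ_comm (A B : Finset σ) : JJ K A B = JJ K B A := by
  ext f
  rw [mem_JJ, mem_JJ]
  apply forall₂_congr
  intro m _
  constructor
  · rintro (h | h | ⟨a, ha, b, hb, h1, h2⟩)
    · exact Or.inr (Or.inl h)
    · exact Or.inl h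
    · exact Or.inr (Or.inr ⟨b, hb, a, ha, h2, h1⟩)
  · rintro (h | h | ⟨a, ha, b, hb, h1, h2⟩)
    · exact Or.inr (Or.inl h)
    · exact Or.inl h
    · exact Or.inr (Or.inr ⟨b, hb, a, ha, h2, h1⟩)

lemma XX_mem {A B : Finset σ} {a b : σ} (ha : a ∈ A) (hb : b ∈ B) :
    (X a * X b : MvPolynomial σ K) ∈ JJ K A B := by
  by_cases hab : a = b
  · subst hab
    rw [mem_JJ]
    intro m hm
    refine Or.inr (Or.inr ⟨a, ha, a, hb, ?_⟩)
    have : (X a * X a : MvPolynomial σ K) = monomial (Finsupp.single a 1 + Finsupp.single a 1) 1 := by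
      simp [X, monomial_mul]
    rw [this] at hm
    have h3 := support_monomial_subset hm
    rw [Finset.mem_singleton] at h3
    simp [h3]
  · have : (X a * X b : MvPolynomial σ K) = ∏ i ∈ ({a, b} : Finset σ), X i := by
      rw [Finset.prod_pair hab]
    rw [this]
    exact Ideal.subset_span ⟨_, Or.inr (Or.inr ⟨a, ha, b, hb, rfl⟩), rfl⟩

/-- `J ⊆ P_a = (x_a) + (x_b : b ∈ B)` for `a ∈ A` -/
lemma JJ_le_PT {A B : Finset σ} {a : σ} (ha : a ∈ A) (hB : B.Nonempty) :
    JJ K A B ≤ PT K (insert a B) := by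
  intro f hf
  rw [mem_JJ] at hf
  rw [mem_PT]
  intro m hm
  rcases hf m hm with h | h | ⟨a', _, b, hb, _, h2⟩
  · exact ⟨a, by simp, h a ha⟩
  · obtain ⟨b, hb⟩ := hB
    exact ⟨b, by simp [hb], h b hb⟩
  · exact ⟨b, by simp [hb], h2⟩


lemma prod_mem_JJ_left (A B : Finset σ) : (∏ i ∈ A, (X i : MvPolynomial σ K)) ∈ JJ K A B :=
  Ideal.subset_span ⟨A, Or.inl rfl, rfl⟩

lemma prod_notMem {S T : Finset σ} (h : ∀ i ∈ S, i ∉ T) :
    (∏ i ∈ S, (X i : MvPolynomial σ K)) ∉ PT K T := by
  intro hh
  rw [(PT_prime T).prod_mem_iff] at hh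
  obtain ⟨i, hi, h2⟩ := hh
  exact h i hi (X_mem_PT.1 h2)

/-- `(J : ∏_{A \ a} x_i) = P_a`. -/
lemma colon_eq {A B : Finset σ} (hd : ∀ i ∈ A, i ∉ B) (hB : B.Nonempty) {a a' : σ} (ha : a ∈ A)
    (ha' : a' ∈ A) (haa : a' ≠ a) :
    Submodule.colon (JJ K A B) {∏ i ∈ A.erase a, (X i : MvPolynomial σ K)}
      = PT K (insert a B) := by
  apply le_antisymm
  · intro g hg
    rw [Submodule.mem_colon] at hg
    have h1 := JJ_le_PT ha hB (hg _ rfl)
    rw [smul_eq_mul] at h1
    rcases (PT_prime (K := K) (insert a B)).mem_or_mem h1 with h | h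
    · exact h
    · exfalso
      refine prod_notMem (K := K) ?_ h
      intro i hi hi2
      rw [Finset.mem_erase] at hi
      rw [Finset.mem_insert] at hi2
      rcases hi2 with h | h
      · exact hi.1 h
      · exact hd i hi.2 h
  · unfold PT
    rw [Ideal.span_le]
    rintro _ ⟨i, hi, rfl⟩
    simp only [Finset.coe_insert, Set.mem_insert_iff, Finset.mem_coe] at hi
    rw [SetLike.mem_coe, Submodule.mem_colon]
    rintro s hs
    rw [Set.mem_singleton_iff] at hs
    subst hs
    rw [smul_eq_mul]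
    rcases hi with rfl | hi
    · rw [Finset.mul_prod_erase A (fun i => (X i : MvPolynomial σ K)) ha]
      exact prod_mem_JJ_left A B
    · have h2 : a' ∈ A.erase a := Finset.mem_erase.2 ⟨haa, ha'⟩
      rw [← Finset.mul_prod_erase (A.erase a) (fun i => (X i : MvPolynomial σ K)) h2, ← mul_assoc]
      apply Ideal.mul_mem_right
      rw [mul_comm]
      exact XX_mem ha' hi

lemma mem_JJ_of_forall {A B : Finset σ} {g : MvPolynomial σ K}
    (h1 : ∀ a ∈ A, g ∈ PT K (insert a B)) (h2 : ∀ b ∈ B, g ∈ PT K (insert b A)) :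
    g ∈ JJ K A B := by
  rw [mem_JJ]
  intro m hm
  by_cases hb : ∃ b ∈ B, m b ≠ 0
  · by_cases ha : ∃ a ∈ A, m a ≠ 0
    · obtain ⟨b, hb, hb2⟩ := hb
      obtain ⟨a, ha, ha2⟩ := ha
      exact Or.inr (Or.inr ⟨a, ha, b, hb, ha2, hb2⟩)
    · refine Or.inr (Or.inl ?_)
      intro b hb
      obtain ⟨i, hi, hi2⟩ := mem_PT.1 (h2 b hb) m hm
      rw [Finset.mem_insert] at hi
      rcases hi with rfl | hi
      · exact hi2
      · exact absurd ⟨i, hi, hi2⟩ ha
  · refine Or.inl ?_
    intro a ha
    obtain ⟨i, hi, hi2⟩ := mem_PT.1 (h1 a ha) m hm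
    rw [Finset.mem_insert] at hi
    rcases hi with rfl | hi
    · exact hi2
    · exact absurd ⟨i, hi, hi2⟩ hb

/-- Low degree elements do not have a prime colon ideal (one sided version). -/
lemma aux_not_prime {A B : Finset σ} (hd : ∀ i ∈ A, i ∉ B) (hB : B.Nonempty)
    {r k : ℕ} (hA : A.card = r + 1) (hk : k < r) {f : MvPolynomial σ K} (hf : f.IsHomogeneous k)
    {m : σ →₀ ℕ} (hm : m ∈ f.support) (hmB : ∀ b ∈ B, m b = 0)
    (hp : (Submodule.colon (JJ K A B) {f}).IsPrime) : False := by
  have hdeg : ∑ i ∈ A, m i ≤ k := by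
    have h1 : m.degree = k := by
      have := hf (mem_support_iff.1 hm)
      rw [Finsupp.degree_eq_weight_one]
      exact this
    rw [← h1, Finsupp.degree_apply]
    have : ∑ i ∈ A, m i = ∑ i ∈ A ∩ m.support, m i := by
      symm
      apply Finset.sum_subset Finset.inter_subset_left
      intro x hx hx2
      by_contra h
      exact hx2 (Finset.mem_inter.2 ⟨hx, Finsupp.mem_support_iff.2 h⟩)
    rw [this]
    exact Finset.sum_le_sum_of_subset Finset.inter_subset_right
  have hcard : (A.filter (fun i => m i ≠ 0)).card ≤ k := by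
    refine le_trans ?_ hdeg
    rw [Finset.card_filter]
    apply Finset.sum_le_sum
    intro i _
    split_ifs with h
    · omega
    · omega
  have hcard2 : 1 < (A.filter (fun i => ¬ (m i ≠ 0))).card := by
    have := Finset.card_filter_add_card_filter_not (s := A) (fun i => m i ≠ 0)
    omega
  obtain ⟨a, ha, a', ha', haa⟩ := Finset.one_lt_card.1 hcard2
  rw [Finset.mem_filter, not_not] at ha ha'
  have key : ∀ c ∈ A, m c = 0 → f ∉ PT K (insert c B) := by
    intro c hc hc0 hfc
    obtain ⟨i, hi, hi2⟩ := mem_PT.1 hfc m hm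
    rw [Finset.mem_insert] at hi
    rcases hi with rfl | hi
    · exact hi2 hc0
    · exact hi2 (hmB i hi)
  have hprod : (∏ i ∈ A, (X i : MvPolynomial σ K)) ∈ Submodule.colon (JJ K A B) {f} := by
    rw [Submodule.mem_colon]
    intro s hs
    rw [Set.mem_singleton_iff] at hs
    subst hs
    rw [smul_eq_mul]
    exact Ideal.mul_mem_right _ _ (prod_mem_JJ_left A B)
  rw [hp.prod_mem_iff] at hprod
  obtain ⟨i, hiA, hi⟩ := hprod
  rw [Submodule.mem_colon] at hi
  have hi1 := hi f rfl
  rw [smul_eq_mul] at hi1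
  have key2 : ∀ c ∈ A, m c = 0 → i = c := by
    intro c hc hc0
    rcases (PT_prime (K := K) (insert c B)).mem_or_mem (JJ_le_PT hc hB hi1) with h | h
    · rw [X_mem_PT, Finset.mem_insert] at h
      rcases h with h | h
      · exact h
      · exact absurd h (hd i hiA)
    · exact absurd h (key c hc hc0)
  exact haa ((key2 a ha.1 ha.2).symm.trans (key2 a' ha'.1 ha'.2))

lemma not_prime {A B : Finset σ} (hd : ∀ i ∈ A, i ∉ B)
    {r k : ℕ} (hA : A.card = r + 1) (hB : B.card = r + 1) (hk : k < r) {f : MvPolynomial σ K}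
    (hf : f.IsHomogeneous k)
    (hp : (Submodule.colon (JJ K A B) {f}).IsPrime) : False := by
  have hAn : A.Nonempty := Finset.card_pos.1 (by omega)
  have hBn : B.Nonempty := Finset.card_pos.1 (by omega)
  have hfJ : f ∉ JJ K A B := by
    intro h
    apply hp.ne_top
    rw [Ideal.eq_top_iff_one, Submodule.mem_colon]
    intro s hs
    rw [Set.mem_singleton_iff] at hs
    subst hs
    simpa using h
  rw [mem_JJ] at hfJ
  push Not at hfJ
  obtain ⟨m, hm, -, -, h3⟩ := hfJ
  by_cases hb : ∃ b ∈ B, m b ≠ 0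
  · obtain ⟨b, hb, hb2⟩ := hb
    have hmA : ∀ a ∈ A, m a = 0 := by
      intro a ha
      by_contra h
      exact hb2 (h3 a ha b hb h)
    rw [JJ_comm] at hp
    exact aux_not_prime (fun i hi hi2 => hd i hi2 hi) hAn hB hk hf hm hmA hp
  · push Not at hb
    exact aux_not_prime hd hBn hA hk hf hm hb hp

/-- The sum of the variables is a nonzerodivisor modulo `J`. -/
lemma sum_regular {A B : Finset σ} (hd : ∀ i ∈ A, i ∉ B)
    (hA : 1 < A.card) (hB : 1 < B.card) {g : MvPolynomial σ K}
    (h : (∑ i, (X i : MvPolynomial σ K)) * g ∈ JJ K A B) : g ∈ JJ K A B := by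
  have hAn : A.Nonempty := Finset.card_pos.1 (by omega)
  have hBn : B.Nonempty := Finset.card_pos.1 (by omega)
  have key : ∀ (T : Finset σ) (c : σ), c ∉ T → (∑ i, (X i : MvPolynomial σ K)) ∉ PT K T := by
    intro T c hc hh
    obtain ⟨i, hi, hi2⟩ := mem_PT.1 hh (Finsupp.single c 1) (by
      rw [mem_support_iff, coeff_sum, Finset.sum_eq_single c]
      · simp
      · intro j _ hj
        rw [coeff_X]
        rw [if_neg]
        intro hh
        exact hj (Finsupp.single_left_injective one_ne_zero hh)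
      · intro hh
        exact absurd (Finset.mem_univ c) hh)
    rw [Finsupp.single_apply] at hi2
    by_cases hci : c = i
    · exact hc (hci ▸ hi)
    · simp [hci] at hi2
  apply mem_JJ_of_forall
  · intro a ha
    rcases (PT_prime (K := K) (insert a B)).mem_or_mem (JJ_le_PT ha hBn h) with h1 | h1
    · exfalso
      obtain ⟨c, hc, hca⟩ := Finset.exists_mem_ne hA a
      refine key (insert a B) c ?_ h1
      rw [Finset.mem_insert]
      rintro (h | h)
      · exact hca h
      · exact hd c hc h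
    · exact h1
  · intro b hb
    rw [JJ_comm] at h
    rcases (PT_prime (K := K) (insert b A)).mem_or_mem (JJ_le_PT hb hAn h) with h1 | h1
    · exfalso
      obtain ⟨c, hc, hca⟩ := Finset.exists_mem_ne hB b
      refine key (insert b A) c ?_ h1
      rw [Finset.mem_insert]
      rintro (h | h)
      · exact hca h
      · exact hd c h hc
    · exact h1

/-- If `f` is a nonzerodivisor mod `J` then `f ∉ P_a`. -/
lemma notMem_of_regular {A B : Finset σ} (hd : ∀ i ∈ A, i ∉ B) (hA : 1 < A.card)
    (hB : B.Nonempty) {f : MvPolynomial σ K}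
    (hf : ∀ g, f * g ∈ JJ K A B → g ∈ JJ K A B) {a : σ} (ha : a ∈ A) : f ∉ PT K (insert a B) := by
  intro h
  obtain ⟨c, hc, hca⟩ := Finset.exists_mem_ne hA a
  rw [← colon_eq hd hB ha hc hca, Submodule.mem_colon] at h
  have h1 := hf _ (h _ rfl)
  refine prod_notMem (K := K) ?_ (JJ_le_PT ha hB h1)
  intro i hi hi2
  rw [Finset.mem_erase] at hi
  rw [Finset.mem_insert] at hi2
  rcases hi2 with h | h
  · exact hi.1 h
  · exact hd i hi.2 h

lemma PT_univ : PT K (Finset.univ : Finset σ) = Ideal.span (Set.range X) := by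
  unfold PT
  rw [Finset.coe_univ, Set.image_univ]

/-- The element `kill_B f` multiplies the maximal ideal into `J + (f)`. -/
lemma mul_kill_mem {A B : Finset σ} (hAB : ∀ i, i ∈ A ∨ i ∈ B) {f : MvPolynomial σ K}
    (hf : f ∈ PT K (Finset.univ : Finset σ)) {g : MvPolynomial σ K}
    (hg : g ∈ PT K (Finset.univ : Finset σ)) :
    g * kill K B f ∈ JJ K A B ⊔ Ideal.span {f} := by
  have hXA : ∀ a ∈ A, ∀ p ∈ PT K B, X a * p ∈ JJ K A B := by
    intro a ha p hp
    have : PT K B ≤ Submodule.colon (JJ K A B) {(X a : MvPolynomial σ K)} := by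
      unfold PT
      rw [Ideal.span_le]
      rintro _ ⟨b, hb, rfl⟩
      rw [SetLike.mem_coe, Submodule.mem_colon]
      intro s hs
      rw [Set.mem_singleton_iff] at hs
      subst hs
      rw [smul_eq_mul, mul_comm]
      exact XX_mem ha (by simpa using hb)
    have h2 := Submodule.mem_colon.1 (this hp) (X a) rfl
    rwa [smul_eq_mul, mul_comm] at h2
  have hXB : ∀ b ∈ B, ∀ p ∈ PT K A, X b * p ∈ JJ K A B := by
    intro b hb p hp
    have : PT K A ≤ Submodule.colon (JJ K A B) {(X b : MvPolynomial σ K)} := by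
      unfold PT
      rw [Ideal.span_le]
      rintro _ ⟨a, ha, rfl⟩
      rw [SetLike.mem_coe, Submodule.mem_colon]
      intro s hs
      rw [Set.mem_singleton_iff] at hs
      subst hs
      rw [smul_eq_mul]
      exact XX_mem (by simpa using ha) hb
    have h2 := Submodule.mem_colon.1 (this hp) (X b) rfl
    rwa [smul_eq_mul, mul_comm] at h2
  have hkA : kill K B f ∈ PT K A := by
    have : PT K (Finset.univ : Finset σ) ≤ (PT K A).comap (kill K B : MvPolynomial σ K →ₐ[K] _) := by
      nth_rewrite 1 [PT]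
      rw [Ideal.span_le]
      rintro _ ⟨i, _, rfl⟩
      rw [SetLike.mem_coe, Ideal.mem_comap]
      by_cases hi : i ∈ B
      · simp [kill, hi]
      · have : kill K B (X i) = X i := by simp [kill, hi]
        rw [this, X_mem_PT]
        exact (hAB i).resolve_right hi
    exact this hf
  have : PT K (Finset.univ : Finset σ) ≤
      Submodule.colon (JJ K A B ⊔ Ideal.span {f}) {kill K B f} := by
    nth_rewrite 1 [PT]
    rw [Ideal.span_le]
    rintro _ ⟨i, _, rfl⟩
    rw [SetLike.mem_coe, Submodule.mem_colon]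
    intro s hs
    rw [Set.mem_singleton_iff] at hs
    subst hs
    rw [smul_eq_mul]
    rcases hAB i with hi | hi
    · have h1 : X i * kill K B f = X i * f - X i * (f - kill K B f) := by ring
      rw [h1]
      apply Ideal.sub_mem
      · exact Ideal.mem_sup_right (Ideal.mul_mem_left _ _ (Ideal.mem_span_singleton_self f))
      · exact Ideal.mem_sup_left (hXA i hi _ (sub_kill_mem B f))
    · exact Ideal.mem_sup_left (hXB i hi _ hkA)
  have h2 := Submodule.mem_colon.1 (this hg) _ rfl
  rwa [smul_eq_mul] at h2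

/-- If `f` is regular mod `J` then `kill_B f ∉ J + (f)`. -/
lemma kill_notMem {A B : Finset σ} (hd : ∀ i ∈ A, i ∉ B) (hAB : ∀ i, i ∈ A ∨ i ∈ B)
    (hA : 1 < A.card) (hB : 1 < B.card)
    {f : MvPolynomial σ K} (hfm : f ∈ PT K (Finset.univ : Finset σ))
    (hf : ∀ g, f * g ∈ JJ K A B → g ∈ JJ K A B) :
    kill K B f ∉ JJ K A B ⊔ Ideal.span {f} := by
  have hAn : A.Nonempty := Finset.card_pos.1 (by omega)
  have hBn : B.Nonempty := Finset.card_pos.1 (by omega)
  intro h
  rw [Submodule.mem_sup] at h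
  obtain ⟨j, hj, w, hw, hjw⟩ := h
  rw [Ideal.mem_span_singleton] at hw
  obtain ⟨u, rfl⟩ := hw
  obtain ⟨a, ha⟩ := hAn
  obtain ⟨b, hb⟩ := hBn
  have hd' : ∀ i ∈ B, i ∉ A := fun i hi hi2 => hd i hi2 hi
  -- `f (1 - u) ∈ P_a`
  have h1 : f * (1 - u) ∈ PT K (insert a B) := by
    have : f * (1 - u) = (f - kill K B f) + j := by rw [← hjw]; ring
    rw [this]
    apply Ideal.add_mem
    · exact PT_mono (Finset.subset_insert a B) (sub_kill_mem B f)
    · exact JJ_le_PT ha ⟨b, hb⟩ hj
  have h2 : (1 - u) ∈ PT K (insert a B) :=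
    ((PT_prime (K := K) (insert a B)).mem_or_mem h1).resolve_left
      (notMem_of_regular hd hA ⟨b, hb⟩ hf ha)
  -- `f u ∈ Q_b`
  have hkA : kill K B f ∈ PT K A := by
    have : PT K (Finset.univ : Finset σ) ≤ (PT K A).comap (kill K B : MvPolynomial σ K →ₐ[K] _) := by
      nth_rewrite 1 [PT]
      rw [Ideal.span_le]
      rintro _ ⟨i, _, rfl⟩
      rw [SetLike.mem_coe, Ideal.mem_comap]
      by_cases hi : i ∈ B
      · simp [kill, hi]
      · have : kill K B (X i) = X i := by simp [kill, hi]
        rw [this, X_mem_PT]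
        exact (hAB i).resolve_right hi
    exact this hfm
  have h3 : f * u ∈ PT K (insert b A) := by
    have : f * u = kill K B f - j := by rw [← hjw]; ring
    rw [this]
    apply Ideal.sub_mem
    · exact PT_mono (Finset.subset_insert b A) hkA
    · rw [JJ_comm] at hj
      exact JJ_le_PT hb ⟨a, ha⟩ hj
  have h4 : u ∈ PT K (insert b A) :=
    ((PT_prime (K := K) (insert b A)).mem_or_mem h3).resolve_left
      (notMem_of_regular hd' hB ⟨a, ha⟩ (by
        intro g hg
        rw [JJ_comm] at hg ⊢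
        exact hf g hg) hb)
  have h5 : (1 : MvPolynomial σ K) ∈ PT K (Finset.univ : Finset σ) := by
    have : (1 : MvPolynomial σ K) = (1 - u) + u := by ring
    rw [this]
    exact Ideal.add_mem _ (PT_mono (Finset.subset_univ _) h2) (PT_mono (Finset.subset_univ _) h4)
  exact one_notMem_PT _ h5


lemma JJ_le_univ {A B : Finset σ} (hA : A.Nonempty) (hB : B.Nonempty) :
    JJ K A B ≤ PT K (Finset.univ : Finset σ) := by
  obtain ⟨a, ha⟩ := hA
  exact (JJ_le_PT ha hB).trans (PT_mono (Finset.subset_univ _))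

lemma smul_mk_mem_iff (J : Ideal (MvPolynomial σ K)) (f h : MvPolynomial σ K) :
    (Ideal.Quotient.mk J h : MvPolynomial σ K ⧸ J) ∈
      (f • (⊤ : Submodule (MvPolynomial σ K) (MvPolynomial σ K ⧸ J))) ↔
      h ∈ J ⊔ Ideal.span {f} := by
  rw [Submodule.mem_smul_pointwise_iff_exists]
  constructor
  · rintro ⟨x, -, hx⟩
    obtain ⟨u, rfl⟩ := Ideal.Quotient.mk_surjective x
    have h1 : h - f * u ∈ J := by
      rw [← Ideal.Quotient.eq, ← hx, map_mul]
      rfl
    rw [Submodule.mem_sup]
    exact ⟨h - f * u, h1, f * u, Ideal.mul_mem_right _ _ (Ideal.mem_span_singleton_self f),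
      by ring⟩
  · intro hh
    rw [Submodule.mem_sup] at hh
    obtain ⟨j, hj, w, hw, rfl⟩ := hh
    rw [Ideal.mem_span_singleton] at hw
    obtain ⟨u, rfl⟩ := hw
    refine ⟨Ideal.Quotient.mk J u, trivial, ?_⟩
    have : (f • (Ideal.Quotient.mk J u : MvPolynomial σ K ⧸ J)) = Ideal.Quotient.mk J (f * u) := by
      rw [map_mul]; rfl
    rw [this, Ideal.Quotient.eq]
    have h2 : f * u - (j + f * u) = -j := by ring
    rw [h2]
    exact J.neg_mem hj

lemma isSMulRegular_quot_iff (J : Ideal (MvPolynomial σ K)) (f : MvPolynomial σ K) :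
    IsSMulRegular (MvPolynomial σ K ⧸ J) f ↔ ∀ g, f * g ∈ J → g ∈ J := by
  rw [isSMulRegular_iff_right_eq_zero_of_smul]
  constructor
  · intro h g hg
    rw [← Ideal.Quotient.eq_zero_iff_mem]
    apply h
    have : (f • (Ideal.Quotient.mk J g : MvPolynomial σ K ⧸ J)) = Ideal.Quotient.mk J (f * g) := by
      rw [map_mul]; rfl
    rw [this, Ideal.Quotient.eq_zero_iff_mem]
    exact hg
  · intro h x hx
    obtain ⟨g, rfl⟩ := Ideal.Quotient.mk_surjective x
    rw [Ideal.Quotient.eq_zero_iff_mem]
    apply h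
    have : (f • (Ideal.Quotient.mk J g : MvPolynomial σ K ⧸ J)) = Ideal.Quotient.mk J (f * g) := by
      rw [map_mul]; rfl
    rw [this, Ideal.Quotient.eq_zero_iff_mem] at hx
    exact hx

lemma length_le_one {A B : Finset σ} (hd : ∀ i ∈ A, i ∉ B) (hAB : ∀ i, i ∈ A ∨ i ∈ B)
    (hA : 1 < A.card) (hB : 1 < B.card) (rs : List (MvPolynomial σ K))
    (hrs : ∀ r ∈ rs, r ∈ PT K (Finset.univ : Finset σ))
    (hreg : RingTheory.Sequence.IsRegular (MvPolynomial σ K ⧸ JJ K A B) rs) : rs.length ≤ 1 := by
  match rs, hrs, hreg with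
  | [], _, _ => simp
  | [_], _, _ => simp
  | f :: g :: rest, hrs, hreg =>
    exfalso
    rw [RingTheory.Sequence.isRegular_cons_iff, RingTheory.Sequence.isRegular_cons_iff] at hreg
    obtain ⟨hf, hg, -⟩ := hreg
    rw [isSMulRegular_quot_iff] at hf
    have hfm := hrs f (by simp)
    have hgm := hrs g (by simp)
    have h1 := mul_kill_mem hAB hfm hgm
    have h2 := kill_notMem hd hAB hA hB hfm hf
    rw [isSMulRegular_iff_right_eq_zero_of_smul] at hg
    have h3 := hg (Submodule.Quotient.mk (Ideal.Quotient.mk _ (kill K B f))) (by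
      rw [← Submodule.Quotient.mk_smul, Submodule.Quotient.mk_eq_zero]
      have : (g • (Ideal.Quotient.mk (JJ K A B) (kill K B f) : MvPolynomial σ K ⧸ JJ K A B))
          = Ideal.Quotient.mk _ (g * kill K B f) := by
        rw [map_mul]; rfl
      rw [this, smul_mk_mem_iff]
      exact h1)
    rw [Submodule.Quotient.mk_eq_zero, smul_mk_mem_iff] at h3
    exact h2 h3

lemma sum_isRegular {A B : Finset σ} (hd : ∀ i ∈ A, i ∉ B)
    (hA : 1 < A.card) (hB : 1 < B.card) :
    RingTheory.Sequence.IsRegular (MvPolynomial σ K ⧸ JJ K A B)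
      [∑ i, (X i : MvPolynomial σ K)] := by
  have hAn : A.Nonempty := Finset.card_pos.1 (by omega)
  have hBn : B.Nonempty := Finset.card_pos.1 (by omega)
  rw [RingTheory.Sequence.isRegular_cons_iff]
  refine ⟨?_, ?_⟩
  · rw [isSMulRegular_quot_iff]
    intro g hg
    exact sum_regular hd hA hB hg
  · have : Nontrivial (QuotSMulTop (∑ i, (X i : MvPolynomial σ K))
        (MvPolynomial σ K ⧸ JJ K A B)) := by
      apply Submodule.Quotient.nontrivial_iff.2
      intro h
      have h1 : (Ideal.Quotient.mk (JJ K A B) 1 : MvPolynomial σ K ⧸ JJ K A B) ∈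
          ((∑ i, (X i : MvPolynomial σ K)) •
            (⊤ : Submodule (MvPolynomial σ K) (MvPolynomial σ K ⧸ JJ K A B))) := by
        rw [h]; trivial
      rw [smul_mk_mem_iff] at h1
      apply one_notMem_PT (K := K) (Finset.univ : Finset σ)
      have h2 : JJ K A B ⊔ Ideal.span {∑ i, (X i : MvPolynomial σ K)}
          ≤ PT K (Finset.univ : Finset σ) := by
        apply sup_le (JJ_le_univ hAn hBn)
        rw [Ideal.span_singleton_le_iff_mem]
        apply Ideal.sum_mem
        intro i _
        exact X_mem_PT.2 (Finset.mem_univ i)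
      exact h2 h1
    exact RingTheory.Sequence.IsRegular.nil _ _

lemma JJ_ne_top {A B : Finset σ} (hA : A.Nonempty) (hB : B.Nonempty) : JJ K A B ≠ ⊤ := by
  intro h
  apply one_notMem_PT (K := K) (Finset.univ : Finset σ)
  apply JJ_le_univ hA hB
  rw [h]; trivial

end general

/-- **Main theorem.** For every field `K` and every integer `r ≥ 1` there is a squarefree monomial
ideal `I` of some `R = K[x_1, …, x_n]` with `v(I) = r` and `depth (R/I) = 1`. -/
theorem result (K : Type u) [Field K] (r : ℕ) (hr : 1 ≤ r) :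
    ∃ (n : ℕ) (I : Ideal (MvPolynomial (Fin n) K)),
      IsSquarefreeMonomialIdeal I ∧ vNumber I = r ∧ depthQuot I = 1 := by
  classical
  set n := 2 * (r + 1) with hn
  let A : Finset (Fin n) := Finset.univ.filter (fun i => i.val < r + 1)
  let B : Finset (Fin n) := Finset.univ.filter (fun i => ¬ (i.val < r + 1))
  have hd : ∀ i ∈ A, i ∉ B := by
    intro i hi hi2
    simp only [A, B, Finset.mem_filter, Finset.mem_univ, true_and] at hi hi2
    exact hi2 hi
  have hAB : ∀ i, i ∈ A ∨ i ∈ B := by
    intro i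
    simp only [A, B, Finset.mem_filter, Finset.mem_univ, true_and]
    exact em _
  have hA : A.card = r + 1 := by
    simp only [A]
    rw [Fin.card_filter_val_lt]
    omega
  have hB : B.card = r + 1 := by
    have := Finset.card_filter_add_card_filter_not (s := (Finset.univ : Finset (Fin n)))
      (fun i => i.val < r + 1)
    rw [Finset.card_univ, Fintype.card_fin] at this
    change A.card + B.card = n at this
    omega
  have hAn : A.Nonempty := Finset.card_pos.1 (by omega)
  have hBn : B.Nonempty := Finset.card_pos.1 (by omega)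
  have hd' : ∀ i ∈ B, i ∉ A := fun i hi hi2 => hd i hi2 hi
  refine ⟨n, JJ K A B, ⟨JJ_ne_top hAn hBn, gens A B, rfl⟩, ?_, ?_⟩
  · -- the v-number
    apply le_antisymm
    · apply sInf_le
      obtain ⟨a, ha⟩ := hAn
      obtain ⟨a', ha', haa⟩ := Finset.exists_mem_ne (by omega : 1 < A.card) a
      refine ⟨r, rfl, ∏ i ∈ A.erase a, X i, ?_, PT K (insert a B), ?_,
        colon_eq hd hBn ha ha' haa⟩
      · have h1 := IsHomogeneous.prod (A.erase a) (fun i => (X i : MvPolynomial (Fin n) K))
          (fun _ => 1) (fun i _ => isHomogeneous_X K i)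
        have h2 : ∑ _i ∈ A.erase a, 1 = r := by
          rw [Finset.sum_const, smul_eq_mul, mul_one, Finset.card_erase_of_mem ha, hA]
          omega
        rwa [h2] at h1
      · rw [AssociatedPrimes.mem_iff, isAssociatedPrime_iff]
        refine ⟨PT_prime _, Ideal.Quotient.mk _ (∏ i ∈ A.erase a, X i), ?_⟩
        rw [← colon_eq (K := K) hd hBn ha ha' haa]
        ext g
        rw [Submodule.mem_colon, Submodule.mem_colon]
        constructor
        · intro h s hs
          rw [Set.mem_singleton_iff] at hs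
          subst hs
          have h1 := h _ rfl
          rw [Submodule.mem_bot]
          change (Ideal.Quotient.mk (JJ K A B) (g * ∏ i ∈ A.erase a, X i)) = 0
          rw [Ideal.Quotient.eq_zero_iff_mem]
          exact h1
        · intro h s hs
          rw [Set.mem_singleton_iff] at hs
          subst hs
          have h1 := h _ rfl
          rw [Submodule.mem_bot] at h1
          change (Ideal.Quotient.mk (JJ K A B) (g * ∏ i ∈ A.erase a, X i)) = 0 at h1
          rw [Ideal.Quotient.eq_zero_iff_mem] at h1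
          exact h1
    · apply le_sInf
      rintro d ⟨k, rfl, f, hf, p, hp, hcol⟩
      by_contra hlt
      have hk : k < r := by
        have : (k : ℕ∞) < (r : ℕ∞) := not_le.1 hlt
        exact_mod_cast this
      rw [AssociatedPrimes.mem_iff] at hp
      have hprime := hp.isPrime
      rw [← hcol] at hprime
      exact not_prime hd hA hB hk hf hprime
  · -- the depth
    apply le_antisymm
    · apply sSup_le
      rintro d ⟨rs, rfl, hrs, hreg⟩
      have := length_le_one hd hAB (by omega) (by omega) rs (by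
        intro x hx
        rw [PT_univ]
        exact hrs x hx) hreg
      exact_mod_cast this
    · apply le_sSup
      refine ⟨[∑ i, X i], by simp, ?_, sum_isRegular hd (by omega) (by omega)⟩
      intro x hx
      rw [List.mem_singleton] at hx
      subst hx
      apply Ideal.sum_mem
      intro i _
      exact Ideal.subset_span ⟨i, rfl⟩

end Pool.Agent.Results.MP_d06a13_ag.VNumberDepth
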